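import Pool.Agent.Lib.MP_774a5f_nt.Defs
import Pool.Agent.Lib.MP_774a5f_nt.Main

/-!
# A lower bound for the logarithmic derivative of zeta on the 1-line, in every direction
-/

namespace MP774a5f

open Set

theorem rot_eq (θ t : ℝ) : rotLogDeriv θ t = (g θ (1 + t * Complex.I)).re := rfl

theorem continuousOn_rot (θ : ℝ) : ContinuousOn (rotLogDeriv θ) (Ioi 0) := by
  intro t ht
  have h1 : DifferentiableAt ℂ (g θ) (1 + t * Complex.I) :=
    g_differentiableAt θ (by simp) (by simpa using ht)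
  have h3 : ContinuousAt (fun x : ℝ => (1 : ℂ) + x * Complex.I) t := by fun_prop
  have h4 : ContinuousAt (fun x : ℝ => (g θ (1 + x * Complex.I)).re) t :=
    Complex.continuous_re.continuousAt.comp (ContinuousAt.comp (g := g θ) h1.continuousAt h3)
  exact h4.continuousWithinAt

end MP774a5f

namespace Pool.Agent.Results.MP_774a5f_nt.LowerBoundAllDirections

open MP774a5f

/-- There are absolute constants such that, for all large `T` and every `θ`, the maximum `M(T, θ)`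
is attained and is at least `log log T - C`; more generally every interval `[T, T + H]` (`T > 0`,
`H` large) contains a point `t` with `Re (e^{-iθ} (ζ'/ζ)(1 + it)) ≥ log log H - C`. -/
theorem result :
    (∃ C T₀ : ℝ, 16 ≤ T₀ ∧ ∀ T θ : ℝ, T₀ ≤ T →
      IsGreatest (rotLogDeriv θ '' Set.Icc T (2 * T)) (M T θ) ∧
      Real.log (Real.log T) - C ≤ M T θ) ∧
    (∃ C H₀ : ℝ, 16 ≤ H₀ ∧ ∀ T H θ : ℝ, 0 < T → H₀ ≤ H →
      ∃ t ∈ Set.Icc T (T + H), Real.log (Real.log H) - C ≤ rotLogDeriv θ t) := by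
  obtain ⟨K, H0, hH0, hmain⟩ := lower
  have hsec : ∀ T H θ : ℝ, 0 < T → H0 ≤ H →
      ∃ t ∈ Set.Icc T (T + H), Real.log (Real.log H) - K ≤ rotLogDeriv θ t := by
    intro T H θ hT hH
    obtain ⟨t, h1, h2, h3⟩ := hmain T H θ hT hH
    exact ⟨t, ⟨h1, h2⟩, h3⟩
  refine ⟨⟨K, H0, hH0, ?_⟩, K, H0, hH0, hsec⟩
  intro T θ hT
  have hT0 : 0 < T := by linarith
  obtain ⟨t, ht, hle⟩ := hsec T T θ hT0 hT
  have ht' : t ∈ Set.Icc T (2 * T) := ⟨ht.1, by linarith [ht.2]⟩
  have hcomp : IsCompact (rotLogDeriv θ '' Set.Icc T (2 * T)) :=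
    isCompact_Icc.image_of_continuousOn
      ((continuousOn_rot θ).mono fun x hx => lt_of_lt_of_le hT0 hx.1)
  have hne : (rotLogDeriv θ '' Set.Icc T (2 * T)).Nonempty := ⟨_, t, ht', rfl⟩
  refine ⟨hcomp.isGreatest_sSup hne, hle.trans ?_⟩
  exact le_csSup hcomp.bddAbove ⟨t, ht', rfl⟩

end Pool.Agent.Results.MP_774a5f_nt.LowerBoundAllDirections
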