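import Pool.Agent.Lib.MP_774a5f_nt.Defs
import Pool.Agent.Lib.MP_774a5f_nt.LD.M1_52
import Pool.Agent.Lib.MP_774a5f_nt.LD.M2_52
import Pool.Agent.Lib.MP_774a5f_nt.LD.M3_81
import Pool.Agent.Lib.MP_774a5f_nt.LD.M4_39
import Pool.Agent.Lib.MP_774a5f_nt.LD.M5_52
import Pool.Agent.Lib.MP_774a5f_nt.LD.M6_95
import Pool.Agent.Lib.MP_774a5f_nt.LD.M7_95
import Pool.Agent.Lib.MP_774a5f_nt.LD.M8_95
import Pool.Agent.Lib.MP_774a5f_nt.LD.M9_39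
import Pool.Agent.Lib.MP_774a5f_nt.LD.M10_42
import Pool.Agent.Lib.MP_774a5f_nt.LD.M11_42
import Pool.Agent.Lib.MP_774a5f_nt.LD.M12_81
import Pool.Agent.Lib.MP_774a5f_nt.LD.M13_42

/-!
# Large deviations of the logarithmic derivative of zeta on the 1-line, in every direction
-/

namespace Pool.Agent.Results.MP_774a5f_nt.QuantilesAndDiscs

open MeasureTheory Set

/-- `R_θ(t) = Re (e^{-iθ} (ζ'/ζ)(1+it))` on `[T, 2T]`.

(1) At every level `x` with `T^{-1/(C log log T)} ≤ x ≤ 1/C`, uniformly in `θ`, the value which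
`R_θ` exceeds on a proportion `x` of `[T, 2T]` is `log log (1/x) + log log log (1/x) + O(1)`.

(2) The values of `(ζ'/ζ)(1+it)`, `T ≤ t ≤ 2T`, are `ε`-dense in the disc
`|w| ≤ log log T - C(ε)`, with a lower bound of the correct order for the logarithm of the measure
of the set of `t` with value within `ε` of `w`.

(3) The matching upper bound for the measure of the set where `|(ζ'/ζ)(1+it)| ≥ τ`,
`τ ≤ log log T`.

(4) For `0 ≤ u ≤ log log T`, `|(ζ'/ζ)(1+it)| < log log T + u` outside a set of measure at most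
`C T^{1 - u/(C log log T)}`. -/
theorem result :
    (∃ C T₀ : ℝ, 1 ≤ C ∧ 16 ≤ T₀ ∧ ∀ T θ x : ℝ, T₀ ≤ T →
      Real.exp (-(Real.log T / (C * Real.log (Real.log T)))) ≤ x → x ≤ 1 / C →
      ENNReal.ofReal (x * T) ≤ volume {t : ℝ | t ∈ Icc T (2 * T) ∧
        Real.log (Real.log (1 / x)) + Real.log (Real.log (Real.log (1 / x))) - C ≤
          MP774a5f.rotLogDeriv θ t} ∧
      volume {t : ℝ | t ∈ Icc T (2 * T) ∧
        Real.log (Real.log (1 / x)) + Real.log (Real.log (Real.log (1 / x))) + C ≤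
          MP774a5f.rotLogDeriv θ t} ≤ ENNReal.ofReal (x * T)) ∧
    (∀ ε : ℝ, 0 < ε → ∃ C T₀ : ℝ, 1 ≤ C ∧ 16 ≤ T₀ ∧ ∀ (T : ℝ) (w : ℂ), T₀ ≤ T →
      ‖w‖ ≤ Real.log (Real.log T) - C →
      ENNReal.ofReal (T * Real.exp (-(C * Real.exp ‖w‖ / (1 + ‖w‖)))) ≤
        volume {t : ℝ | t ∈ Icc T (2 * T) ∧
          ‖deriv riemannZeta (1 + t * Complex.I) / riemannZeta (1 + t * Complex.I) - w‖ ≤ ε}) ∧
    (∃ C T₀ : ℝ, 1 ≤ C ∧ 16 ≤ T₀ ∧ ∀ T τ : ℝ, T₀ ≤ T → 0 ≤ τ → τ ≤ Real.log (Real.log T) →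
      volume {t : ℝ | t ∈ Icc T (2 * T) ∧
          τ ≤ ‖deriv riemannZeta (1 + t * Complex.I) / riemannZeta (1 + t * Complex.I)‖} ≤
        ENNReal.ofReal (C * T * Real.exp (-(Real.exp τ / (C * (1 + τ)))))) ∧
    (∃ C T₀ : ℝ, 1 ≤ C ∧ 16 ≤ T₀ ∧ ∀ T u : ℝ, T₀ ≤ T → 0 ≤ u → u ≤ Real.log (Real.log T) →
      volume {t : ℝ | t ∈ Icc T (2 * T) ∧ Real.log (Real.log T) + u ≤
          ‖deriv riemannZeta (1 + t * Complex.I) / riemannZeta (1 + t * Complex.I)‖} ≤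
        ENNReal.ofReal (C * T * Real.exp (-(u * Real.log T / (C * Real.log (Real.log T)))))) := by
  have h5 := Pool.Agent.Lib.MP_774a5f_nt.LD.st5 Pool.Agent.Lib.MP_774a5f_nt.LD.st1
  have h3 := Pool.Agent.Lib.MP_774a5f_nt.LD.st3 Pool.Agent.Lib.MP_774a5f_nt.LD.st1
    Pool.Agent.Lib.MP_774a5f_nt.LD.st2
  have h4 := Pool.Agent.Lib.MP_774a5f_nt.LD.st4
  have h6 := Pool.Agent.Lib.MP_774a5f_nt.LD.st6 h4 h5
  have hB := Pool.Agent.Lib.MP_774a5f_nt.LD.stB h3 h4 h5 h6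
  have hA := Pool.Agent.Lib.MP_774a5f_nt.LD.stA h3 Pool.Agent.Lib.MP_774a5f_nt.LD.st7
    (Pool.Agent.Lib.MP_774a5f_nt.LD.st8 h4) Pool.Agent.Lib.MP_774a5f_nt.LD.st9
    Pool.Agent.Lib.MP_774a5f_nt.LD.st10
  exact ⟨Pool.Agent.Lib.MP_774a5f_nt.LD.stQ hA hB, hA, hB,
    Pool.Agent.Lib.MP_774a5f_nt.LD.stC h3 h4 h5 h6 hB⟩

end Pool.Agent.Results.MP_774a5f_nt.QuantilesAndDiscs
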